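import Pool.Agent.N718.DC.Stm

/-!
# Project DC (helper718), part PTS: the sample points
-/

set_option autoImplicit false

namespace Pool.Agent.N749.DC

open Finset Pool.Agent.N718.DC

theorem exists_prime (h : S_SW) (M' : ℕ) (hM : 1 ≤ M') (u : ℤ) (hu : IsCoprime u (M' : ℤ)) :
    ∃ Z₀ : ℕ, ∀ Z : ℕ, Z₀ ≤ Z → ∃ p : ℕ, p.Prime ∧ Z < p ∧ p ≤ 2 * Z ∧
      (M' : ℤ) ∣ (p : ℤ) - u := by
  obtain ⟨X₀, hX⟩ := h 1 1
  refine ⟨max X₀ ⌈Real.exp (2 * M' + 2)⌉₊, fun Z hZ => ?_⟩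
  have hZ1 : X₀ ≤ 2 * Z := by
    have := (le_max_left _ _).trans hZ
    omega
  have hZ2 : Real.exp (2 * M' + 2) ≤ Z :=
    (Nat.le_ceil _).trans (by exact_mod_cast (le_max_right _ _).trans hZ)
  have hZpos : (0 : ℝ) < Z := (Real.exp_pos _).trans_le hZ2
  have hlog : 2 * (M' : ℝ) + 2 ≤ Real.log ((2 * Z : ℕ) : ℝ) := by
    rw [Real.le_log_iff_exp_le (by push_cast; linarith)]
    push_cast
    linarith
  have hM0 : (1 : ℝ) ≤ M' := by exact_mod_cast hM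
  have h1 := hX (2 * Z) hZ1 M' hM (by rw [pow_one]; linarith) u hu (Z : ℤ) ((2 * Z : ℕ) : ℤ)
    (by push_cast; omega) (by push_cast; omega) le_rfl
  by_contra hno
  push Not at hno
  have h2 : ∑ n ∈ (Ioc (Z : ℤ) ((2 * Z : ℕ) : ℤ)).filter (fun n => (M' : ℤ) ∣ n - u), lam n = 0 := by
    refine Finset.sum_eq_zero fun n hn => ?_
    rw [mem_filter, mem_Ioc] at hn
    unfold lam
    rw [if_neg]
    rintro ⟨h3, h4⟩
    have h5 : ((n.natAbs : ℕ) : ℤ) = n := Int.natAbs_of_nonneg h3.le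
    exact hno n.natAbs h4 (by omega) (by omega) (by rw [h5]; exact hn.2)
  have h3 : ∑ n ∈ Ioc (Z : ℤ) ((2 * Z : ℕ) : ℤ), pos n = Z := by
    have h4 : ∀ n ∈ Ioc (Z : ℤ) ((2 * Z : ℕ) : ℤ), pos n = 1 := by
      intro n hn
      rw [mem_Ioc] at hn
      unfold pos
      rw [if_pos (by omega)]
    rw [Finset.sum_congr rfl h4, Finset.sum_const, Int.card_Ioc, nsmul_eq_mul, mul_one]
    have : (((2 * Z : ℕ) : ℤ) - (Z : ℤ)).toNat = Z := by
      push_cast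
      omega
    rw [this]
  rw [h2, h3, zero_sub, abs_neg, pow_one] at h1
  have hφ : 0 < Nat.totient M' := Nat.totient_pos.2 hM
  have hφ0 : (0 : ℝ) < Nat.totient M' := by exact_mod_cast hφ
  have hφ1 : (Nat.totient M' : ℝ) ≤ M' := by exact_mod_cast Nat.totient_le M'
  rw [abs_of_nonneg (by positivity)] at h1
  have hl0 : 0 < Real.log ((2 * Z : ℕ) : ℝ) := by linarith
  rw [one_div, inv_mul_eq_div, div_le_div_iff₀ hφ0 hl0] at h1
  push_cast at h1
  have h5 : (Z : ℝ) * Real.log (2 * Z) ≤ Z * (2 * M') := by nlinarith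
  have h6 := le_of_mul_le_mul_left h5 hZpos
  push_cast at hlog
  linarith

theorem pts_ (h : S_SW) : S_PTS := by
  intro M a₀ a₁ α β n hM hαβ
  obtain ⟨g, hg⟩ : ∃ g : ℕ, g = Int.gcd a₀ (M : ℤ) := ⟨_, rfl⟩
  have hM0 : (M : ℤ) ≠ 0 := by exact_mod_cast (by omega : M ≠ 0)
  have hg0 : 0 < g := by
    rw [hg]
    exact Int.gcd_pos_of_ne_zero_right _ hM0
  have hgM : g ∣ M := by
    have : (g : ℤ) ∣ (M : ℤ) := by rw [hg]; exact Int.gcd_dvd_right _ _
    exact_mod_cast this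
  obtain ⟨M', hM'⟩ := hgM
  obtain ⟨u, hu⟩ : (g : ℤ) ∣ a₀ := by rw [hg]; exact Int.gcd_dvd_left _ _
  have hM'1 : 1 ≤ M' := by
    rcases Nat.eq_zero_or_pos M' with h0 | h0
    · rw [h0] at hM'
      omega
    · exact h0
  have hcop : IsCoprime u (M' : ℤ) := by
    rw [Int.isCoprime_iff_gcd_eq_one]
    have h1 : Int.gcd a₀ (M : ℤ) = g * Int.gcd u (M' : ℤ) := by
      rw [hu, hM']
      push_cast
      rw [Int.gcd_mul_left, Int.natAbs_natCast]
    rw [← hg] at h1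
    exact (Nat.eq_of_mul_eq_mul_left hg0 (by rw [mul_one]; exact h1)).symm
  obtain ⟨Z₀, hZ₀⟩ := exists_prime h M' hM'1 u hcop
  obtain ⟨B, hB⟩ : ∃ B : ℝ, B = |α| + |β| := ⟨_, rfl⟩
  have hB0 : 0 ≤ B := by rw [hB]; positivity
  have hd : 0 < β - α := by linarith
  have hMr : (1 : ℝ) ≤ M := by exact_mod_cast hM
  obtain ⟨Λ, hΛ⟩ : ∃ Λ : ℝ, Λ = 1 + 4 * M + B + 3 * M / (β - α) + Z₀ := ⟨_, rfl⟩
  refine ⟨n + 4, ⌈Real.exp Λ⌉₊, fun H hH => ?_⟩
  have hH1 : Real.exp Λ ≤ H := (Nat.le_ceil _).trans (by exact_mod_cast hH)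
  obtain ⟨l, hl⟩ : ∃ l : ℝ, l = Real.log H := ⟨_, rfl⟩
  have hlΛ : Λ ≤ l := by
    rw [hl, Real.le_log_iff_exp_le ((Real.exp_pos _).trans_le hH1)]
    exact hH1
  rw [← hl]
  have p1 : 0 ≤ 3 * (M : ℝ) / (β - α) := by positivity
  have p2 : (0 : ℝ) ≤ Z₀ := Nat.cast_nonneg _
  have l1 : 1 ≤ l := by linarith
  have l4M : 4 * (M : ℝ) ≤ l := by linarith
  have lB : B ≤ l := by linarith
  have lZ : (Z₀ : ℝ) ≤ l := by linarith
  have ld : 3 * (M : ℝ) ≤ (β - α) * l := by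
    have h1 : 3 * (M : ℝ) / (β - α) ≤ l := by linarith
    rw [div_le_iff₀ hd] at h1
    linarith
  have hpow : ∀ i j : ℕ, i ≤ j → l ^ i ≤ l ^ j := fun i j hij => pow_le_pow_right₀ l1 hij
  have lpos : ∀ i : ℕ, 0 < l ^ i := fun i => pow_pos (by linarith) i
  obtain ⟨Z, hZ⟩ : ∃ Z : ℕ, Z = ⌈l ^ (n + 2)⌉₊ := ⟨_, rfl⟩
  have z1 : l ^ (n + 2) ≤ Z := by rw [hZ]; exact Nat.le_ceil _
  have z2 : (Z : ℝ) ≤ 2 * l ^ (n + 2) := by
    have h1 : (Z : ℝ) < l ^ (n + 2) + 1 := by rw [hZ]; exact Nat.ceil_lt_add_one (lpos _).le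
    have h2 : (1 : ℝ) ≤ l ^ (n + 2) := one_le_pow₀ l1
    linarith
  have z3 : l ≤ Z := by
    have := hpow 1 (n + 2) (by omega)
    rw [pow_one] at this
    linarith
  obtain ⟨q', hq', hZq, hqZ, hdvd⟩ := hZ₀ Z (by
    have : (Z₀ : ℝ) ≤ Z := lZ.trans z3
    exact_mod_cast this)
  have q1 : (Z : ℝ) < q' := by exact_mod_cast hZq
  have q2 : (q' : ℝ) ≤ 2 * Z := by exact_mod_cast hqZ
  have hgM' : (g : ℝ) ≤ M := by
    have : g ≤ M := Nat.le_of_dvd (by omega) ⟨M', hM'⟩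
    exact_mod_cast this
  have hg1 : (1 : ℝ) ≤ g := by exact_mod_cast hg0
  obtain ⟨q, hq⟩ : ∃ q : ℝ, q = ((g * q' : ℕ) : ℝ) := ⟨_, rfl⟩
  have hq2 : q = g * q' := by rw [hq]; push_cast; ring
  have q3 : l ^ (n + 2) ≤ q := by
    rw [hq2]
    nlinarith
  have q4 : q ≤ l ^ (n + 3) := by
    rw [hq2]
    calc (g : ℝ) * q' ≤ M * (2 * (2 * l ^ (n + 2))) := by
          refine mul_le_mul hgM' (q2.trans ?_) (by positivity) (by positivity)
          linarith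
      _ = (4 * M) * l ^ (n + 2) := by ring
      _ ≤ l * l ^ (n + 2) := mul_le_mul_of_nonneg_right l4M (lpos _).le
      _ = l ^ (n + 3) := by ring
  have q0 : 0 < q := (lpos _).trans_le q3
  obtain ⟨y₀, hy₀⟩ : ∃ y₀ : ℤ, y₀ = a₁ + M * (⌊(α * q - a₁) / M⌋ + 1) := ⟨_, rfl⟩
  have hMpos : (0 : ℝ) < M := by linarith
  have y1 : α * q < y₀ := by
    have h1 := Int.lt_floor_add_one ((α * q - a₁) / M)
    rw [div_lt_iff₀ hMpos] at h1
    rw [hy₀]
    push_cast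
    linarith
  have y2 : (y₀ : ℝ) ≤ α * q + M := by
    have h1 := Int.floor_le ((α * q - a₁) / M)
    rw [le_div_iff₀ hMpos] at h1
    rw [hy₀]
    push_cast
    linarith
  obtain ⟨T, hT⟩ : ∃ T : ℕ, T = ⌊((β - α) * q - M) / M⌋₊ := ⟨_, rfl⟩
  have hlow : l ^ n * 3 * M ≤ (β - α) * q := by
    calc l ^ n * 3 * M = l ^ n * (3 * M) := by ring
      _ ≤ l ^ n * ((β - α) * l) := mul_le_mul_of_nonneg_left ld (lpos _).le
      _ ≤ l ^ n * ((β - α) * l) * l := le_mul_of_one_le_right (by positivity) l1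
      _ = (β - α) * l ^ (n + 2) := by ring
      _ ≤ (β - α) * q := mul_le_mul_of_nonneg_left q3 hd.le
  have hln : (1 : ℝ) ≤ l ^ n := one_le_pow₀ l1
  have hval : 0 ≤ ((β - α) * q - M) / M := by
    apply div_nonneg _ hMpos.le
    nlinarith
  have t1 : (T : ℝ) * M ≤ (β - α) * q - M := by
    have h1 := Nat.floor_le hval
    rw [← hT, le_div_iff₀ hMpos] at h1
    exact h1
  have t2 : (β - α) * q - M < ((T : ℝ) + 1) * M := by
    have h1 := Nat.lt_floor_add_one (((β - α) * q - M) / M)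
    rw [← hT, div_lt_iff₀ hMpos] at h1
    exact h1
  have t3 : l ^ n ≤ T := by
    have h1 : l ^ n * 3 * M < ((T : ℝ) + 2) * M := by linarith
    have h2 := lt_of_mul_lt_mul_right h1 hMpos.le
    linarith
  have hrange : ∀ t < T, α * q < ((y₀ + M * t : ℤ) : ℝ) ∧ ((y₀ + M * t : ℤ) : ℝ) < β * q := by
    intro t ht
    have h1 : (t : ℝ) + 1 ≤ T := by exact_mod_cast ht
    have h2 : (M : ℝ) * t ≤ M * (T - 1) := mul_le_mul_of_nonneg_left (by linarith) hMpos.le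
    have h3 : (0 : ℝ) ≤ M * t := by positivity
    push_cast
    constructor
    · linarith
    · linarith
  have hBq : B * q ≤ l ^ (n + 4) := by
    calc B * q ≤ l * l ^ (n + 3) := mul_le_mul lB q4 q0.le (by linarith)
      _ = l ^ (n + 4) := by ring
  refine ⟨g, q', y₀, T, ⟨M', hM'⟩, hq', ?_, ?_, ?_, ?_, t3, ?_, ?_, ?_, ?_⟩
  · intro hdv
    have h1 := Nat.le_of_dvd (by omega) hdv
    have h2 : (q' : ℝ) ≤ M := by exact_mod_cast h1
    linarith
  · have h1 : ((g * q' : ℕ) : ℤ) - a₀ = g * ((q' : ℤ) - u) := by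
      rw [hu]
      push_cast
      ring
    rw [h1, hM']
    push_cast
    exact mul_dvd_mul_left _ hdvd
  · refine ⟨⌊(α * q - a₁) / M⌋ + 1, ?_⟩
    rw [hy₀]
    ring
  · intro t ht
    rw [← hq]
    exact hrange t ht
  · exact ((hpow n (n + 2) (by omega)).trans z1).trans q1.le
  · rw [← hq]
    exact q4.trans (hpow _ _ (by omega))
  · have h1 : (T : ℝ) ≤ T * M := le_mul_of_one_le_right (Nat.cast_nonneg _) hMr
    have h2 : (β - α) * q ≤ B * q := by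
      refine mul_le_mul_of_nonneg_right ?_ q0.le
      rw [hB]
      have := le_abs_self β
      have := neg_abs_le α
      linarith
    linarith
  · intro t ht
    obtain ⟨h1, h2⟩ := hrange t ht
    refine le_trans ?_ hBq
    rw [hB, abs_le]
    have h3 := mul_le_mul_of_nonneg_right (le_abs_self β) q0.le
    have h4 := mul_le_mul_of_nonneg_right (neg_abs_le α) q0.le
    have h5 : 0 ≤ |α| * q := by positivity
    have h6 : 0 ≤ |β| * q := by positivity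
    constructor
    · linarith
    · linarith

end Pool.Agent.N749.DC
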